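import Mathlib
import Pool.Agent.Helper655.DUUniq
import Pool.Agent.Helper655.DUFin

set_option autoImplicit false

namespace Pool.Agent.Results.MP_20cf85_an.SobolevTraceSet

open MeasureTheory Filter Topology

/-- `f` belongs to the Dirichlet space: it is analytic in the open unit disc and the area integral
of `|f'|^2` over the disc is finite. -/
def InDirichlet (f : ℂ → ℂ) : Prop :=
  DifferentiableOn ℂ f (Metric.ball (0 : ℂ) 1) ∧
    ∫⁻ z in Metric.ball (0 : ℂ) 1, ‖deriv f z‖ₑ ^ 2 < ⊤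

/-- `E` (a subset of the unit circle) is a uniqueness set for the Dirichlet space: a function of the
Dirichlet space whose radial limit is zero at every point of `E` vanishes identically. -/
def IsUniquenessSet (E : Set ℂ) : Prop :=
  ∀ f : ℂ → ℂ, InDirichlet f →
    (∀ ζ ∈ E, Tendsto (fun r : ℝ => f (r * ζ)) (𝓝[<] 1) (𝓝 0)) →
    ∀ z ∈ Metric.ball (0 : ℂ) 1, f z = 0

/-- `H` belongs to `W_2^1` of the plane: it is square integrable and has a square integrable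
generalized gradient `G`. -/
def InSobolev (H : ℂ → ℝ) : Prop :=
  MemLp H 2 ∧ ∃ G : ℂ → (ℂ →L[ℝ] ℝ), MemLp G 2 ∧
    ∀ φ : ℂ → ℝ, ContDiff ℝ 1 φ → HasCompactSupport φ →
      ∀ v : ℂ, ∫ z, H z * fderiv ℝ φ z v = - ∫ z, G z v * φ z

theorem result :
    ∃ E : Set ℂ, IsClosed E ∧ E ⊆ Metric.sphere (0 : ℂ) 1 ∧ IsUniquenessSet E ∧
      ∃ H : ℂ → ℝ, Continuous H ∧ (∀ z, 0 ≤ H z) ∧ InSobolev H ∧
        (∀ ζ ∈ E, H ζ = 0) ∧
        (∀ᵐ t : ℝ, t ∈ Set.Ioc (-Real.pi) Real.pi → 0 < H (Complex.exp (t * Complex.I))) ∧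
        IntegrableOn (fun t : ℝ => Real.log (H (Complex.exp (t * Complex.I))))
          (Set.Ioc (-Real.pi) Real.pi) := by
  refine ⟨Helper655.DU.EE, Helper655.DU.C5.EE_facts.1, Helper655.DU.C5.EE_facts.2.1, ?_,
    Helper655.DU.HH, Helper655.DU.Fin.HH_cont, Helper655.DU.Fin.HH_nonneg,
    ⟨Helper655.DU.Fin.HH_memLp, fderiv ℝ Helper655.DU.HH, Helper655.DU.Fin.G_memLp,
      Helper655.DU.Fin.weak_HH⟩, Helper655.DU.Fin.HH_zero_on, ?_, Helper655.DU.Fin.HH_log⟩
  · intro f hf hz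
    exact Helper655.DU.Uniq.uniq f hf.1 hf.2 hz
  · filter_upwards [Helper655.DU.C5.EE_facts.2.2] with t ht htm
    exact Helper655.DU.Fin.HH_pos (ht htm)

end Pool.Agent.Results.MP_20cf85_an.SobolevTraceSet
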